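import Mathlib

set_option autoImplicit false

/-!
# Almost homomorphisms between groups, and groups with similar multiplication tables
-/

namespace Pool.Agent.X246.GRP

open Finset

open scoped Classical

section blr

variable {G H : Type} [Group G] [Fintype G] [Group H]

/-- the number of the pairs at which `f` is not a homomorphism -/
noncomputable def bad (f : G → H) : ℕ :=
  (univ.filter fun p : G × G => f (p.1 * p.2) ≠ f p.1 * f p.2).card

/-- `f (x y) f(y)⁻¹` -/
def vote (f : G → H) (x y : G) : H := f (x * y) * (f y)⁻¹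

theorem vote_pairs (f : G → H) (x : G) :
    (univ.filter fun p : G × G => vote f x p.1 ≠ vote f x p.2).card ≤ 2 * bad f := by
  have h1 : (univ.filter fun p : G × G => vote f x p.1 ≠ vote f x p.2) ⊆
      (univ.filter fun p : G × G => f ((x * p.1) * (p.1⁻¹ * p.2)) ≠ f (x * p.1) * f (p.1⁻¹ * p.2)) ∪
      (univ.filter fun p : G × G => f (p.1 * (p.1⁻¹ * p.2)) ≠ f p.1 * f (p.1⁻¹ * p.2)) := by
    intro p hp
    rw [mem_filter] at hp
    rw [mem_union, mem_filter, mem_filter]
    by_contra hcon
    push Not at hcon
    obtain ⟨h1, h2⟩ := hcon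
    apply hp.2
    have h1 := h1 (mem_univ _)
    have h2 := h2 (mem_univ _)
    have e1 : (x * p.1) * (p.1⁻¹ * p.2) = x * p.2 := by group
    have e2 : p.1 * (p.1⁻¹ * p.2) = p.2 := by group
    rw [e1] at h1
    rw [e2] at h2
    unfold vote
    rw [h1, h2]
    group
  refine (card_le_card h1).trans ((card_union_le _ _).trans ?_)
  have h2 : (univ.filter fun p : G × G =>
      f ((x * p.1) * (p.1⁻¹ * p.2)) ≠ f (x * p.1) * f (p.1⁻¹ * p.2)).card ≤ bad f := by
    unfold bad
    refine card_le_card_of_injOn (fun p => (x * p.1, p.1⁻¹ * p.2)) ?_ ?_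
    · intro p hp
      simp only [coe_filter, mem_univ, true_and, Set.mem_ofPred_eq] at hp ⊢
      exact hp
    · rintro ⟨a, b⟩ - ⟨c, d⟩ - h
      simp only [Prod.mk.injEq, mul_right_inj] at h
      obtain ⟨h1, h2⟩ := h
      subst h1
      rw [mul_right_inj] at h2
      rw [h2]
  have h3 : (univ.filter fun p : G × G =>
      f (p.1 * (p.1⁻¹ * p.2)) ≠ f p.1 * f (p.1⁻¹ * p.2)).card ≤ bad f := by
    unfold bad
    refine card_le_card_of_injOn (fun p => (p.1, p.1⁻¹ * p.2)) ?_ ?_
    · intro p hp
      simp only [coe_filter, mem_univ, true_and, Set.mem_ofPred_eq] at hp ⊢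
      exact hp
    · rintro ⟨a, b⟩ - ⟨c, d⟩ - h
      simp only [Prod.mk.injEq] at h
      obtain ⟨h1, h2⟩ := h
      subst h1
      rw [mul_right_inj] at h2
      rw [h2]
  omega

/-- some value is taken by almost all votes -/
theorem vote_major (f : G → H) (x : G) : ∃ y, Fintype.card G *
    (univ.filter fun z => vote f x z ≠ vote f x y).card ≤ 2 * bad f := by
  by_contra hcon
  push Not at hcon
  have h1 : ∑ y : G, (Fintype.card G * (univ.filter fun z => vote f x z ≠ vote f x y).card) =
      Fintype.card G * (univ.filter fun p : G × G => vote f x p.1 ≠ vote f x p.2).card := by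
    rw [← mul_sum]
    congr 1
    rw [card_filter, Fintype.sum_prod_type]
    refine sum_congr rfl fun y _ => ?_
    rw [card_filter]
    exact sum_congr rfl fun z _ => by simp only [ne_comm]
  have h2 : ∑ y : G, (2 * bad f) < ∑ y : G, (Fintype.card G *
      (univ.filter fun z => vote f x z ≠ vote f x y).card) :=
    sum_lt_sum_of_nonempty ⟨1, mem_univ _⟩ fun y _ => hcon y
  rw [h1, sum_const, card_univ, smul_eq_mul] at h2
  have h3 := Nat.mul_le_mul_left (Fintype.card G) (vote_pairs f x)
  omega

/-- **Almost homomorphisms.** If `f` is not a homomorphism at less than one sixth of the pairs, it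
coincides with a homomorphism for more than three quarters of the elements. -/
theorem blr (f : G → H) (h : 6 * bad f < Fintype.card G ^ 2) :
    ∃ φ : G →* H, 4 * (univ.filter fun x => φ x ≠ f x).card < Fintype.card G := by
  choose y hy using vote_major f
  have hn : 0 < Fintype.card G := Fintype.card_pos
  obtain ⟨S, hS⟩ : ∃ S : G → Finset G, S = fun x => univ.filter fun z => vote f x z ≠ vote f x (y x) :=
    ⟨_, rfl⟩
  have hScard : ∀ x, Fintype.card G * (S x).card ≤ 2 * bad f := by
    intro x
    rw [hS]
    exact hy x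
  have hSmem : ∀ x z, z ∉ S x → vote f x z = vote f x (y x) := by
    intro x z hz
    rw [hS] at hz
    simp only [mem_filter, mem_univ, true_and, not_not] at hz
    exact hz
  have hmul : ∀ a b : G, vote f (a * b) (y (a * b)) = vote f a (y a) * vote f b (y b) := by
    intro a b
    -- a good element
    have h1 : ∃ z, z ∉ S (a * b) ∧ b * z ∉ S a ∧ z ∉ S b := by
      by_contra hcon
      push Not at hcon
      have h2 : (univ : Finset G) ⊆ S (a * b) ∪ ((S a).image (fun w => b⁻¹ * w)) ∪ S b := by
        intro z _
        rw [mem_union, mem_union, mem_image]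
        by_cases h3 : z ∈ S (a * b)
        · exact Or.inl (Or.inl h3)
        · by_cases h4 : b * z ∈ S a
          · exact Or.inl (Or.inr ⟨b * z, h4, by group⟩)
          · exact Or.inr (hcon z h3 h4)
      have h3 := card_le_card h2
      rw [card_univ] at h3
      have h4 := card_union_le (S (a * b) ∪ ((S a).image (fun w => b⁻¹ * w))) (S b)
      have h5 := card_union_le (S (a * b)) ((S a).image (fun w => b⁻¹ * w))
      have h6 : ((S a).image (fun w => b⁻¹ * w)).card ≤ (S a).card := card_image_le
      have h7 : Fintype.card G ≤ (S (a * b)).card + (S a).card + (S b).card := by omega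
      have h8 := Nat.mul_le_mul_left (Fintype.card G) h7
      have h9 := hScard (a * b)
      have h10 := hScard a
      have h11 := hScard b
      have h12 : Fintype.card G * ((S (a * b)).card + (S a).card + (S b).card) =
        Fintype.card G * (S (a * b)).card + Fintype.card G * (S a).card +
          Fintype.card G * (S b).card := by ring
      rw [sq] at h
      omega
    obtain ⟨z, h1, h2, h3⟩ := h1
    rw [← hSmem _ _ h1, ← hSmem _ _ h2, ← hSmem _ _ h3]
    unfold vote
    rw [← mul_assoc a b z]
    group
  refine ⟨MonoidHom.mk' (fun x => vote f x (y x)) hmul, ?_⟩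
  obtain ⟨B, hB⟩ : ∃ B : Finset G, B = univ.filter fun x =>
    (MonoidHom.mk' (fun x => vote f x (y x)) hmul) x ≠ f x := ⟨_, rfl⟩
  rw [← hB]
  -- count the bad pairs
  have h1 : ∑ x ∈ B, (Fintype.card G - (S x).card) ≤ bad f := by
    have h2 : (B.biUnion fun x => ((S x)ᶜ).image fun z => (x, z)) ⊆
        univ.filter fun p : G × G => f (p.1 * p.2) ≠ f p.1 * f p.2 := by
      intro p hp
      rw [mem_biUnion] at hp
      obtain ⟨x, hx, hp⟩ := hp
      rw [mem_image] at hp
      obtain ⟨z, hz, rfl⟩ := hp
      rw [mem_compl] at hz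
      rw [mem_filter]
      refine ⟨mem_univ _, fun h3 => ?_⟩
      rw [hB, mem_filter] at hx
      apply hx.2
      show vote f x (y x) = f x
      rw [← hSmem x z hz]
      unfold vote
      show f (x * z) * (f z)⁻¹ = f x
      have h3 : f (x * z) = f x * f z := h3
      rw [h3]
      group
    have h3 := card_le_card h2
    rw [card_biUnion] at h3
    · refine le_trans (le_of_eq (sum_congr rfl fun x _ => ?_)) h3
      rw [card_image_of_injective _ (fun a b hab => by simpa using hab), card_compl]
    · intro a _ b _ hab
      rw [Function.onFun, disjoint_left]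
      intro p hp hp'
      rw [mem_image] at hp hp'
      obtain ⟨z, _, rfl⟩ := hp
      obtain ⟨w, _, h4⟩ := hp'
      exact hab (Prod.mk.inj h4).1.symm
  have h2 : ∀ x, Fintype.card G ^ 2 ≤ Fintype.card G * (Fintype.card G - (S x).card) + 2 * bad f := by
    intro x
    have h3 := hScard x
    have h4 : (S x).card ≤ Fintype.card G := card_le_univ _
    have h5 : Fintype.card G * (Fintype.card G - (S x).card) + Fintype.card G * (S x).card =
        Fintype.card G ^ 2 := by
      rw [← mul_add, Nat.sub_add_cancel h4, sq]
    omega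
  have h3 : B.card * Fintype.card G ^ 2 ≤ Fintype.card G * bad f + B.card * (2 * bad f) := by
    calc B.card * Fintype.card G ^ 2 = ∑ x ∈ B, Fintype.card G ^ 2 := by
          rw [sum_const, smul_eq_mul]
      _ ≤ ∑ x ∈ B, (Fintype.card G * (Fintype.card G - (S x).card) + 2 * bad f) :=
          sum_le_sum fun x _ => h2 x
      _ = Fintype.card G * ∑ x ∈ B, (Fintype.card G - (S x).card) + B.card * (2 * bad f) := by
          rw [sum_add_distrib, ← mul_sum, sum_const, smul_eq_mul]
      _ ≤ _ := by
          have := Nat.mul_le_mul_left (Fintype.card G) h1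
          omega
  by_contra hcon
  push Not at hcon
  -- `6 |B| n² ≤ 6 n D + 12 |B| D < n³ + 2 |B| n²`
  have h4 : 6 * (Fintype.card G * bad f) < Fintype.card G ^ 3 := by
    have := Nat.mul_lt_mul_of_pos_left h hn
    calc 6 * (Fintype.card G * bad f) = Fintype.card G * (6 * bad f) := by ring
      _ < Fintype.card G * Fintype.card G ^ 2 := this
      _ = _ := by ring
  have h5 : 12 * (B.card * bad f) ≤ 2 * (B.card * Fintype.card G ^ 2) := by
    have := Nat.mul_le_mul_left (2 * B.card) h.le
    calc 12 * (B.card * bad f) = 2 * B.card * (6 * bad f) := by ring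
      _ ≤ _ := this
      _ = _ := by ring
  have h6 : Fintype.card G ^ 3 ≤ 4 * (B.card * Fintype.card G ^ 2) := by
    have := Nat.mul_le_mul_right (Fintype.card G ^ 2) hcon
    calc Fintype.card G ^ 3 = Fintype.card G * Fintype.card G ^ 2 := by ring
      _ ≤ _ := this
      _ = _ := by ring
  have h7 : B.card * (2 * bad f) = 2 * (B.card * bad f) := by ring
  omega

end blr

end Pool.Agent.X246.GRP
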