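import Pool.Agent.X246.GRP.Gi

set_option autoImplicit false

/-!
# Reductions from graph isomorphism to group isomorphism
-/

namespace Pool.Agent.X246.GRP

open Finset Pool.Agent.X246.ACR Pool.Agent.Y601

open scoped Classical

section subst

variable {N : ℕ} {I : Type}

/-- every bit of `inp x` is constant or a literal -/
def Literal (inp : (Fin N → Bool) → I → Bool) : Prop :=
  ∀ r, (∃ c : Bool, ∀ x, inp x r = c) ∨ ∃ (i : Fin N) (c : Bool), ∀ x, inp x r = (x i == c)

/-- substitution of literals in a polynomial -/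
theorem subst_poly {inp : (Fin N → Bool) → I → Bool} (h : Literal inp) (P : MvPolynomial I ℝ) (k : ℕ)
    (hP : P.totalDegree ≤ k) : ∃ Q : MvPolynomial (Fin N) ℝ, Q.totalDegree ≤ k ∧
      ∀ x : Fin N → Bool, MvPolynomial.eval (fun i => if x i = true then (1 : ℝ) else 0) Q =
        MvPolynomial.eval (fun r => if inp x r = true then (1 : ℝ) else 0) P := by
  have h1 : ∀ r, ∃ g : MvPolynomial (Fin N) ℝ, g.totalDegree ≤ 1 ∧
      ∀ x : Fin N → Bool, MvPolynomial.eval (fun i => if x i = true then (1 : ℝ) else 0) g =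
        if inp x r = true then (1 : ℝ) else 0 := by
    intro r
    rcases h r with ⟨c, hc⟩ | ⟨i, c, hc⟩
    · refine ⟨MvPolynomial.C (if c = true then 1 else 0), ?_, fun x => ?_⟩
      · rw [MvPolynomial.totalDegree_C]
        exact Nat.zero_le _
      · rw [MvPolynomial.eval_C, hc]
    · cases c
      · refine ⟨1 - MvPolynomial.X i, ?_, fun x => ?_⟩
        · refine (MvPolynomial.totalDegree_sub _ _).trans ?_
          rw [MvPolynomial.totalDegree_one, MvPolynomial.totalDegree_X]
          simp
        · rw [map_sub, map_one, MvPolynomial.eval_X, hc]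
          cases x i <;> norm_num
      · refine ⟨MvPolynomial.X i, ?_, fun x => ?_⟩
        · rw [MvPolynomial.totalDegree_X]
        · rw [MvPolynomial.eval_X, hc]
          cases x i <;> norm_num
  choose g hg1 hg2 using h1
  refine ⟨∑ μ ∈ P.support, MvPolynomial.C (P.coeff μ) * ∏ i ∈ μ.support, g i ^ μ i, ?_, fun x => ?_⟩
  · refine MvPolynomial.totalDegree_finsetSum_le fun μ hμ => ?_
    refine (MvPolynomial.totalDegree_mul _ _).trans ?_
    rw [MvPolynomial.totalDegree_C, zero_add]
    refine (MvPolynomial.totalDegree_finsetProd _ _).trans ?_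
    have h2 : ∑ i ∈ μ.support, (g i ^ μ i).totalDegree ≤ ∑ i ∈ μ.support, μ i :=
      sum_le_sum fun i _ => (MvPolynomial.totalDegree_pow _ _).trans (by
        have := Nat.mul_le_mul_left (μ i) (hg1 i)
        omega)
    refine h2.trans (le_trans ?_ ((MvPolynomial.le_totalDegree hμ).trans hP))
    rw [Finsupp.sum]
  · rw [map_sum, MvPolynomial.eval_eq]
    refine sum_congr rfl fun μ _ => ?_
    rw [map_mul, MvPolynomial.eval_C, map_prod]
    congr 1
    refine prod_congr rfl fun i _ => ?_
    rw [map_pow, hg2]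

/-- substitution of literals in a formula -/
theorem subst_form {inp : (Fin N → Bool) → I → Bool} (h : Literal inp) (F : DeMorgan I) :
    ∃ F' : DeMorgan (Fin N), F'.size ≤ F.size ∧ ∀ x, F'.eval x = F.eval (inp x) := by
  induction F with
  | const c => exact ⟨.const c, le_rfl, fun x => rfl⟩
  | lit r c =>
    rcases h r with ⟨d, hd⟩ | ⟨i, d, hd⟩
    · refine ⟨.const (d == c), Nat.zero_le _, fun x => ?_⟩
      show (d == c) = (inp x r == c)
      rw [hd]
    · refine ⟨.lit i (d == c), le_rfl, fun x => ?_⟩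
      show (x i == (d == c)) = (inp x r == c)
      rw [hd]
      cases x i <;> cases d <;> cases c <;> rfl
  | and F G ihF ihG =>
    obtain ⟨F', h1, h2⟩ := ihF
    obtain ⟨G', h3, h4⟩ := ihG
    refine ⟨.and F' G', Nat.add_le_add h1 h3, fun x => ?_⟩
    show (F'.eval x && G'.eval x) = (F.eval (inp x) && G.eval (inp x))
    rw [h2, h4]
  | or F G ihF ihG =>
    obtain ⟨F', h1, h2⟩ := ihF
    obtain ⟨G', h3, h4⟩ := ihG
    refine ⟨.or F' G', Nat.add_le_add h1 h3, fun x => ?_⟩
    show (F'.eval x || G'.eval x) = (F.eval (inp x) || G.eval (inp x))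
    rw [h2, h4]

end subst

section final

variable {W : Type}

/-- The adjacency matrices of two graphs. -/
noncomputable def adj (G H : SimpleGraph W) : Bool × W × W → Bool :=
  fun r => decide (if r.1 = true then G.Adj r.2.1 r.2.2 else H.Adj r.2.1 r.2.2)

theorem exists_pairs [Fintype W] {N : ℕ} (hN : 2 ≤ N) (hW : Fintype.card W = 2 * N + 2) :
    ∃ P : (Fin N → Bool) → SimpleGraph W × SimpleGraph W,
      Literal (fun x => adj (P x).1 (P x).2) ∧
      ∀ x, Nonempty ((P x).1 ≃g (P x).2) ↔ ¬ Odd (univ.filter fun i => x i = true).card := by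
  have hc : Fintype.card W = Fintype.card (Fin (N + 1) × Bool) := by
    rw [hW, Fintype.card_prod, Fintype.card_fin, Fintype.card_bool]
    ring
  obtain ⟨e⟩ := Fintype.card_eq.1 hc
  refine ⟨fun x => ((ladder x).comap e, (ladder (fun _ : Fin N => false)).comap e), ?_, ?_⟩
  · rintro ⟨c, u, v⟩
    cases c
    · left
      exact ⟨decide ((ladder (fun _ : Fin N => false)).Adj (e u) (e v)), fun x => rfl⟩
    · rcases ladder_literal hN (e u) (e v) with ⟨c, hc⟩ | ⟨i, c, hc⟩
      · left
        refine ⟨c, fun x => ?_⟩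
        rw [← hc x]
        rfl
      · right
        refine ⟨i, c, fun x => ?_⟩
        rw [← hc x]
        rfl
  · intro x
    have h1 : Nonempty ((ladder x).comap e ≃g (ladder (fun _ : Fin N => false)).comap e) ↔
        Nonempty (ladder x ≃g ladder (fun _ : Fin N => false)) := by
      constructor
      · rintro ⟨ψ⟩
        exact ⟨((SimpleGraph.Iso.comap e (ladder x)).symm.trans ψ).trans
          (SimpleGraph.Iso.comap e (ladder (fun _ : Fin N => false)))⟩
      · rintro ⟨ψ⟩
        exact ⟨((SimpleGraph.Iso.comap e (ladder x)).trans ψ).trans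
          (SimpleGraph.Iso.comap e (ladder (fun _ : Fin N => false))).symm⟩
    dsimp only
    rw [h1, ← pre_all]
    cases hx : pre x N
    · exact ⟨fun _ => by simp, fun _ => ladder_even x hx⟩
    · exact ⟨fun h => absurd h (ladder_odd (by omega) x hx), fun h => absurd rfl h⟩

theorem avg_not {I : Type} {q s : ℕ} (R : Red I q s) {N : ℕ} {κ γ A : ℝ} (hκ : 0 ≤ κ)
    (inp : (Fin N → Bool) → I → Bool) (p : (Fin N → Bool) → Prop)
    (hp : ∀ x, p x ↔ ¬ Odd (univ.filter fun i => x i = true).card)
    (hf : R.InClass fun f => tsens (fun x => f (inp x)) ≤ 2 ^ N * A)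
    (hA : (1 / 2 + γ) * 2 ^ N ≤ ((univ.filter fun x : Fin N → Bool =>
      R.RightOn κ (inp x) (p x)).card : ℝ)) (hA0 : 0 ≤ A) :
    γ * κ ^ 2 * N ≤ 6 * q * s * A := by
  -- negate the answer
  have h1 := (Red.mk R.m R.f R.dec (fun z => ¬ R.φ z)).avg hκ inp hf (by
    refine hA.trans ?_
    norm_cast
    refine card_le_card fun x hx => ?_
    rw [mem_filter] at hx ⊢
    refine ⟨mem_univ _, hx.2.1, ?_⟩
    have h2 := hx.2.2
    rw [hp] at h2
    show (¬ R.φ _) ↔ _
    rw [show (R.φ fun j => Iso ((Red.mk R.m R.f R.dec (fun z => ¬ R.φ z)).table (inp x) j true)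
      ((Red.mk R.m R.f R.dec (fun z => ¬ R.φ z)).table (inp x) j false)) ↔
      ¬ Odd (univ.filter fun i => x i = true).card from h2]
    exact not_not) hA0
  exact h1

end final

end Pool.Agent.X246.GRP
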