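import Pool.Agent.X246.GRP.Red

set_option autoImplicit false

/-!
# The parity of `N` bits as an isomorphism problem for graphs with `2 N + 2` vertices
-/

namespace Pool.Agent.X246.GRP

open Finset Pool.Agent.X246.ACR Pool.Agent.Y601

section graph

variable {N : ℕ}

/-- the bit `x k`, or false -/
def bt (x : Fin N → Bool) (k : ℕ) : Bool := if h : k < N then x ⟨k, h⟩ else false

/-- the parity of the bits before `k` -/
def pre (x : Fin N → Bool) : ℕ → Bool
  | 0 => false
  | k + 1 => xor (pre x k) (bt x k)

theorem pre_succ (x : Fin N → Bool) (k : ℕ) : pre x (k + 1) = xor (pre x k) (bt x k) := rfl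

theorem pre_zero (x : Fin N → Bool) : pre x 0 = false := rfl

/-- directed edges -/
def Arc (x : Fin N → Bool) (u v : Fin (N + 1) × Bool) : Prop :=
  (u.1.val + 1 = v.1.val ∧ v.2 = xor u.2 (bt x u.1.val)) ∨ (u.1.val = N ∧ v.1.val = 0 ∧ v.2 = u.2)

/-- The graph of `x`: a cyclic ladder with crossings at the ones of `x`. -/
def ladder (x : Fin N → Bool) : SimpleGraph (Fin (N + 1) × Bool) where
  Adj u v := u ≠ v ∧ (Arc x u v ∨ Arc x v u)
  symm := ⟨fun u v h => ⟨h.1.symm, h.2.symm⟩⟩
  loopless := ⟨fun u h => h.1 rfl⟩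

theorem pre_odd (x : Fin N → Bool) (k : ℕ) (hk : k ≤ N) :
    pre x k = true ↔ Odd (univ.filter fun i : Fin N => i.val < k ∧ x i = true).card := by
  induction k with
  | zero => simp [pre]
  | succ k ih =>
    have h1 := ih (by omega)
    have hk' : k < N := by omega
    have h2 : (univ.filter fun i : Fin N => i.val < k + 1 ∧ x i = true) =
        (univ.filter fun i : Fin N => i.val < k ∧ x i = true) ∪
          (if x ⟨k, hk'⟩ = true then {⟨k, hk'⟩} else ∅) := by
      ext i
      rw [mem_union, mem_filter, mem_filter]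
      constructor
      · rintro ⟨-, h3, h4⟩
        rcases Nat.lt_succ_iff_lt_or_eq.1 h3 with h5 | h5
        · exact Or.inl ⟨mem_univ _, h5, h4⟩
        · right
          have : i = ⟨k, hk'⟩ := Fin.ext h5
          rw [← this, if_pos h4, mem_singleton]
      · rintro (⟨-, h3, h4⟩ | h3)
        · exact ⟨mem_univ _, by omega, h4⟩
        · split_ifs at h3 with h4
          · rw [mem_singleton] at h3
            subst h3
            exact ⟨mem_univ _, by simp, h4⟩
          · simp at h3
    have h3 : (univ.filter fun i : Fin N => i.val < k + 1 ∧ x i = true).card =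
        (univ.filter fun i : Fin N => i.val < k ∧ x i = true).card +
          (if x ⟨k, hk'⟩ = true then 1 else 0) := by
      rw [h2, card_union_of_disjoint]
      · split_ifs <;> simp
      · rw [disjoint_left]
        intro i hi hi'
        rw [mem_filter] at hi
        split_ifs at hi'
        · rw [mem_singleton] at hi'
          subst hi'
          exact absurd hi.2.1 (lt_irrefl _)
        · simp at hi'
    rw [h3]
    unfold pre bt
    rw [dif_pos hk']
    cases hx : x ⟨k, hk'⟩
    · simpa using h1
    · simp only [Bool.xor_true, if_true]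
      rw [Nat.odd_add_one, ← h1]
      cases pre x k <;> simp

theorem pre_all (x : Fin N → Bool) :
    pre x N = true ↔ Odd (univ.filter fun i : Fin N => x i = true).card := by
  rw [pre_odd x N le_rfl]
  simp

theorem pre_zero_fun (k : ℕ) : pre (fun _ : Fin N => false) k = false := by
  induction k with
  | zero => rfl
  | succ k ih =>
    unfold pre bt
    rw [ih]
    split_ifs <;> rfl

/-- even inputs -/
theorem ladder_even (x : Fin N → Bool) (hx : pre x N = false) :
    Nonempty (ladder x ≃g ladder (fun _ : Fin N => false)) := by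
  have hbt : ∀ k, bt (fun _ : Fin N => false) k = false := by
    intro k
    unfold bt
    split_ifs <;> rfl
  have harc : ∀ u v : Fin (N + 1) × Bool, Arc (fun _ : Fin N => false)
      (u.1, xor u.2 (pre x u.1.val)) (v.1, xor v.2 (pre x v.1.val)) ↔ Arc x u v := by
    rintro ⟨a, b⟩ ⟨c, d⟩
    unfold Arc
    dsimp only
    rw [hbt]
    constructor
    · rintro (⟨h1, h2⟩ | ⟨h1, h2, h3⟩)
      · left
        refine ⟨h1, ?_⟩
        rw [← h1, pre_succ] at h2
        revert h2
        cases b <;> cases d <;> cases pre x a.val <;> cases bt x a.val <;> simp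
      · right
        refine ⟨h1, h2, ?_⟩
        rw [h1, h2, hx] at h3
        unfold pre at h3
        revert h3
        cases b <;> cases d <;> simp
    · rintro (⟨h1, h2⟩ | ⟨h1, h2, h3⟩)
      · left
        refine ⟨h1, ?_⟩
        rw [← h1, pre_succ, h2]
        cases b <;> cases pre x a.val <;> cases bt x a.val <;> simp
      · right
        refine ⟨h1, h2, ?_⟩
        rw [h1, h2, hx, h3]
        unfold pre
        rfl
  let τ : Fin (N + 1) × Bool ≃ Fin (N + 1) × Bool :=
    { toFun := fun u => (u.1, xor u.2 (pre x u.1.val))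
      invFun := fun u => (u.1, xor u.2 (pre x u.1.val))
      left_inv := by
        rintro ⟨a, b⟩
        simp
      right_inv := by
        rintro ⟨a, b⟩
        simp }
  refine ⟨⟨τ, ?_⟩⟩
  intro u v
  show (τ u ≠ τ v ∧ (Arc _ (τ u) (τ v) ∨ Arc _ (τ v) (τ u))) ↔ _
  rw [τ.injective.ne_iff]
  show (u ≠ v ∧ (Arc _ (u.1, xor u.2 (pre x u.1.val)) (v.1, xor v.2 (pre x v.1.val)) ∨
    Arc _ (v.1, xor v.2 (pre x v.1.val)) (u.1, xor u.2 (pre x u.1.val)))) ↔ _
  rw [harc, harc]
  exact Iff.rfl

/-- odd inputs -/
theorem ladder_odd (hN : 1 ≤ N) (x : Fin N → Bool) (hx : pre x N = true) :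
    ¬ Nonempty (ladder x ≃g ladder (fun _ : Fin N => false)) := by
  rintro ⟨ψ⟩
  have hbt : ∀ k, bt (fun _ : Fin N => false) k = false := by
    intro k
    unfold bt
    split_ifs <;> rfl
  -- the colouring
  obtain ⟨c, hc⟩ : ∃ c : Fin (N + 1) × Bool → Bool, c = fun u => (ψ u).2 := ⟨_, rfl⟩
  have hedge : ∀ u v, (ladder x).Adj u v → c u = c v := by
    intro u v huv
    have h1 := ψ.map_rel_iff.2 huv
    obtain ⟨-, h2⟩ := h1
    rw [hc]
    rcases h2 with h2 | h2
    · rcases h2 with ⟨-, h3⟩ | ⟨-, -, h3⟩
      · rw [hbt, Bool.xor_false] at h3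
        exact h3.symm
      · exact h3.symm
    · rcases h2 with ⟨-, h3⟩ | ⟨-, -, h3⟩
      · rw [hbt, Bool.xor_false] at h3
        exact h3
      · exact h3
  have hstep : ∀ k (hk : k < N + 1) (b : Bool), c (⟨k, hk⟩, xor b (pre x k)) = c (⟨0, by omega⟩, b) := by
    intro k
    induction k with
    | zero =>
      intro hk b
      unfold pre
      rw [Bool.xor_false]
    | succ k ih =>
      intro hk b
      rw [← ih (by omega) b]
      symm
      apply hedge
      refine ⟨fun h => ?_, Or.inl (Or.inl ⟨rfl, ?_⟩)⟩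
      · have := congrArg (fun u : Fin (N + 1) × Bool => u.1.val) h
        simp at this
      · show xor b (pre x (k + 1)) = xor (xor b (pre x k)) (bt x k)
        rw [pre_succ]
        cases b <;> cases pre x k <;> cases bt x k <;> rfl
  have hflip : ∀ b : Bool, c (⟨0, by omega⟩, !b) = c (⟨0, by omega⟩, b) := by
    intro b
    rw [← hstep N (by omega) b, hx, Bool.xor_true]
    symm
    apply hedge
    refine ⟨fun h => ?_, Or.inl (Or.inr ⟨rfl, rfl, rfl⟩)⟩
    have := congrArg (fun u : Fin (N + 1) × Bool => u.1.val) h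
    simp at this
    omega
  have hall : ∀ u, c u = c (⟨0, by omega⟩, false) := by
    rintro ⟨⟨k, hk⟩, b⟩
    have h1 := hstep k hk (xor b (pre x k))
    have h2 : xor (xor b (pre x k)) (pre x k) = b := by
      cases b <;> cases pre x k <;> rfl
    rw [h2] at h1
    rw [h1]
    cases hb : xor b (pre x k)
    · rfl
    · exact hflip false
  have h1 := hall (ψ.symm (⟨0, by omega⟩, true))
  have h2 := hall (ψ.symm (⟨0, by omega⟩, false))
  rw [hc] at h1 h2
  simp only [RelIso.apply_symm_apply] at h1 h2
  rw [← h2] at h1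
  exact absurd h1 (by decide)

open scoped Classical in
/-- every entry of the adjacency matrix is constant or a literal -/
theorem ladder_literal (hN : 2 ≤ N) (u v : Fin (N + 1) × Bool) :
    (∃ c : Bool, ∀ x : Fin N → Bool, decide ((ladder x).Adj u v) = c) ∨
      ∃ (i : Fin N) (c : Bool), ∀ x : Fin N → Bool, decide ((ladder x).Adj u v) = (x i == c) := by
  obtain ⟨⟨a, ha⟩, b⟩ := u
  obtain ⟨⟨a', ha'⟩, b'⟩ := v
  by_cases h1 : a + 1 = a'
  · right
    have h2 : a < N := by omega
    refine ⟨⟨a, h2⟩, xor b b', fun x => ?_⟩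
    rw [Bool.eq_iff_iff, decide_eq_true_iff, beq_iff_eq]
    have h3 : bt x a = x ⟨a, h2⟩ := by
      unfold bt
      rw [dif_pos h2]
    constructor
    · rintro ⟨-, h4⟩
      rcases h4 with (⟨-, h4⟩ | ⟨h4, h5, -⟩) | (⟨h4, -⟩ | ⟨h4, h5, -⟩)
      · simp only at h4
        rw [h3] at h4
        rw [h4]
        cases b <;> cases x ⟨a, h2⟩ <;> rfl
      · simp only at h4 h5
        omega
      · simp only at h4
        omega
      · simp only at h4 h5
        omega
    · intro h4
      refine ⟨fun h => ?_, Or.inl (Or.inl ⟨h1, ?_⟩)⟩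
      · have := congrArg (fun u : Fin (N + 1) × Bool => u.1.val) h
        simp at this
        omega
      · show b' = xor b (bt x a)
        rw [h3, h4]
        cases b <;> cases b' <;> rfl
  · by_cases h1' : a' + 1 = a
    · right
      have h2 : a' < N := by omega
      refine ⟨⟨a', h2⟩, xor b b', fun x => ?_⟩
      rw [Bool.eq_iff_iff, decide_eq_true_iff, beq_iff_eq]
      have h3 : bt x a' = x ⟨a', h2⟩ := by
        unfold bt
        rw [dif_pos h2]
      constructor
      · rintro ⟨-, h4⟩
        rcases h4 with (⟨h4, -⟩ | ⟨h4, h5, -⟩) | (⟨-, h4⟩ | ⟨h4, h5, -⟩)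
        · exact absurd h4 h1
        · simp only at h4 h5
          omega
        · simp only at h4
          rw [h3] at h4
          rw [h4]
          cases b' <;> cases x ⟨a', h2⟩ <;> rfl
        · simp only at h4 h5
          omega
      · intro h4
        refine ⟨fun h => ?_, Or.inr (Or.inl ⟨h1', ?_⟩)⟩
        · have := congrArg (fun u : Fin (N + 1) × Bool => u.1.val) h
          simp at this
          omega
        · show b = xor b' (bt x a')
          rw [h3, h4]
          cases b <;> cases b' <;> rfl
    · left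
      refine ⟨decide ((ladder (fun _ : Fin N => false)).Adj (⟨a, ha⟩, b) (⟨a', ha'⟩, b')), fun x => ?_⟩
      rw [Bool.eq_iff_iff, decide_eq_true_iff, decide_eq_true_iff]
      unfold ladder Arc
      simp only [h1, h1', false_and, false_or]

end graph

end Pool.Agent.X246.GRP
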