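import Pool.Agent.X246.GRP.Table
import Pool.Agent.X246.ACR.Sse

set_option autoImplicit false

/-!
# Nonadaptive reductions to group isomorphism
-/

namespace Pool.Agent.X246.GRP

open Finset Pool.Agent.X246.ACR Pool.Agent.Y601

open scoped Classical

section count

variable {N : ℕ} {R : Type} [Fintype R] {β : R → Type}

/-- the weight of the entries that change -/
noncomputable def wch (w : R → ℝ) (y z : ∀ r, β r) : ℝ := ∑ r, if z r ≠ y r then w r else 0

/-- Double counting of the changed entries, with weights. -/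
theorem wpairs_main (w : R → ℝ) (hw : ∀ r, 0 ≤ w r) (Y : (Fin N → Bool) → ∀ r, β r)
    (A : (Fin N → Bool) → Prop) (m B γ : ℝ) (hm : 0 ≤ m)
    (hpair : ∀ x i, A x → A (SSE.flip i x) → m ≤ wch w (Y x) (Y (SSE.flip i x)))
    (hA : (1 / 2 + γ) * 2 ^ N ≤ ((univ.filter fun x => A x).card : ℝ))
    (hB : ∀ r, ∑ x, ((univ.filter fun i => Y (SSE.flip i x) r ≠ Y x r).card : ℝ) ≤ B * 2 ^ N) :
    2 * γ * N * m ≤ (∑ r, w r) * B := by
  have h1 : ∀ (x : Fin N → Bool) (i : Fin N), m * (if A x ∧ A (SSE.flip i x) then (1 : ℝ) else 0) ≤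
      wch w (Y x) (Y (SSE.flip i x)) := by
    intro x i
    by_cases h : A x ∧ A (SSE.flip i x)
    · rw [if_pos h, mul_one]
      exact hpair x i h.1 h.2
    · rw [if_neg h, mul_zero]
      exact sum_nonneg fun r _ => by split_ifs; exacts [hw r, le_rfl]
  have h2 : ∀ i : Fin N, m * (2 * γ * 2 ^ N) ≤ ∑ x, wch w (Y x) (Y (SSE.flip i x)) := by
    intro i
    have h3 := pairs_ge A γ (by rw [Fintype.card_fin]; exact hA) i
    rw [Fintype.card_fin] at h3
    refine (mul_le_mul_of_nonneg_left h3 hm).trans ?_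
    rw [mul_sum]
    exact sum_le_sum fun x _ => h1 x i
  have h3 := sum_le_sum fun i (_ : i ∈ (univ : Finset (Fin N))) => h2 i
  rw [sum_const, card_univ, Fintype.card_fin, nsmul_eq_mul] at h3
  have h4 : ∑ i : Fin N, ∑ x, wch w (Y x) (Y (SSE.flip i x)) =
      ∑ r, w r * ∑ x, ((univ.filter fun i => Y (SSE.flip i x) r ≠ Y x r).card : ℝ) := by
    unfold wch
    simp_rw [card_filter]
    push_cast
    simp_rw [mul_sum]
    rw [sum_comm]
    rw [sum_comm (s := (univ : Finset R))]
    refine sum_congr rfl fun x _ => ?_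
    rw [sum_comm]
    refine sum_congr rfl fun r _ => sum_congr rfl fun i _ => ?_
    split_ifs <;> simp
  rw [h4] at h3
  have h5 : ∑ r, w r * ∑ x, ((univ.filter fun i => Y (SSE.flip i x) r ≠ Y x r).card : ℝ) ≤
      ∑ r : R, w r * (B * 2 ^ N) := sum_le_sum fun r _ => mul_le_mul_of_nonneg_left (hB r) (hw r)
  rw [← sum_mul] at h5
  have h6 : (2 * γ * N * m) * 2 ^ N ≤ ((∑ r, w r) * B) * 2 ^ N := by linarith
  exact le_of_mul_le_mul_right h6 (by positivity)

/-- Double counting of the changed entries along the staircase, with weights. -/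
theorem wstair (w : R → ℝ) (hw : ∀ r, 0 ≤ w r) (Y : (Fin N → Bool) → ∀ r, β r) (m : ℝ) (M : ℕ)
    (hpair : ∀ j < N, m ≤ wch w (Y (stair N j)) (Y (stair N (j + 1))))
    (hM : ∀ r, ((range N).filter fun j => Y (stair N (j + 1)) r ≠ Y (stair N j) r).card ≤ M) :
    N * m ≤ (∑ r, w r) * M := by
  have h2 := sum_le_sum fun j (hj : j ∈ range N) => hpair j (mem_range.1 hj)
  rw [sum_const, card_range, nsmul_eq_mul] at h2
  have h3 : ∑ j ∈ range N, wch w (Y (stair N j)) (Y (stair N (j + 1))) =
      ∑ r, w r * (((range N).filter fun j => Y (stair N (j + 1)) r ≠ Y (stair N j) r).card : ℝ) := by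
    unfold wch
    simp_rw [card_filter]
    push_cast
    simp_rw [mul_sum]
    rw [sum_comm]
    refine sum_congr rfl fun r _ => sum_congr rfl fun i _ => ?_
    split_ifs <;> simp
  rw [h3] at h2
  refine h2.trans ?_
  rw [sum_mul]
  exact sum_le_sum fun r _ => mul_le_mul_of_nonneg_left (by exact_mod_cast hM r) (hw r)

end count

section red

/-- A nonadaptive reduction to the isomorphism problem for groups, for inputs in `{0,1}^I`. There are
`q` queries; the query `j` consists of two multiplication tables, each with `m j` rows and columns,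
whose entries (possibly empty) are arbitrary functions of `s` Boolean functions `f` of the input. The
answer is the function `φ` of the answers to the queries. -/
structure Red (I : Type) (q s : ℕ) where
  m : Fin q → ℕ
  f : (j : Fin q) → Bool → Fin (m j) → Fin (m j) → Fin s → (I → Bool) → Bool
  dec : (j : Fin q) → Bool → Fin (m j) → Fin (m j) → (Fin s → Bool) → Option (Fin (m j))
  φ : (Fin q → Prop) → Prop

variable {I : Type} {q s : ℕ}

/-- The tables of the query `j`. -/
def Red.table (R : Red I q s) (x : I → Bool) (j : Fin q) (c : Bool) :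
    Fin (R.m j) → Fin (R.m j) → Option (Fin (R.m j)) :=
  fun u v => R.dec j c u v fun i => R.f j c u v i x

/-- On the input `x` all tables are multiplication tables of groups of order at least `κ m j`, and
the answer is `p`. -/
def Red.RightOn (R : Red I q s) (κ : ℝ) (x : I → Bool) (p : Prop) : Prop :=
  (∀ j c, Valid (κ * R.m j) (R.table x j c)) ∧
    (R.φ (fun j => Iso (R.table x j true) (R.table x j false)) ↔ p)

/-- All functions `f` of the reduction are in the class `C`. -/
def Red.InClass (R : Red I q s) (C : ((I → Bool) → Bool) → Prop) : Prop :=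
  ∀ j c u v i, C (R.f j c u v i)

/-- the places of all tables -/
abbrev Red.Pl (R : Red I q s) : Type := Σ j : Fin q, Bool × Fin (R.m j) × Fin (R.m j)

/-- all entries of all tables -/
def Red.entry (R : Red I q s) (x : I → Bool) (r : R.Pl) : Option (Fin (R.m r.1)) :=
  R.table x r.1 r.2.1 r.2.2.1 r.2.2.2

/-- the weights -/
noncomputable def Red.wt (R : Red I q s) (r : R.Pl) : ℝ := 1 / (R.m r.1 : ℝ) ^ 2

theorem Red.wt_nonneg (R : Red I q s) (r : R.Pl) : 0 ≤ R.wt r := by
  unfold Red.wt
  positivity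

theorem Red.sum_wt (R : Red I q s) : ∑ r, R.wt r ≤ 2 * q := by
  rw [Fintype.sum_sigma]
  calc ∑ j : Fin q, ∑ p : Bool × Fin (R.m j) × Fin (R.m j), R.wt ⟨j, p⟩
      ≤ ∑ _j : Fin q, (2 : ℝ) := by
        refine sum_le_sum fun j _ => ?_
        have e0 : ∀ p : Bool × Fin (R.m j) × Fin (R.m j), R.wt ⟨j, p⟩ = 1 / (R.m j : ℝ) ^ 2 :=
          fun p => rfl
        rw [sum_congr rfl fun p _ => e0 p]
        rw [sum_const, card_univ, nsmul_eq_mul, Fintype.card_prod, Fintype.card_prod,
          Fintype.card_fin, Fintype.card_bool]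
        push_cast
        rcases Nat.eq_zero_or_pos (R.m j) with h | h
        · rw [h]
          simp
        · have : (0 : ℝ) < R.m j := by exact_mod_cast h
          apply le_of_eq
          field_simp
    _ = 2 * q := by
        rw [sum_const, card_univ, Fintype.card_fin, nsmul_eq_mul]
        ring

theorem Red.dist_le (R : Red I q s) (x y : I → Bool) (j : Fin q) (c : Bool) :
    (dist (R.table x j c) (R.table y j c) : ℝ) / (R.m j : ℝ) ^ 2 ≤ wch R.wt (R.entry x) (R.entry y) := by
  obtain ⟨g, hg⟩ : ∃ g : R.Pl → ℝ, g = fun r => if R.entry y r ≠ R.entry x r then R.wt r else 0 :=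
    ⟨_, rfl⟩
  have hg0 : ∀ r, 0 ≤ g r := by
    intro r
    rw [hg]
    dsimp only
    split_ifs
    exacts [R.wt_nonneg _, le_rfl]
  have h0 : wch R.wt (R.entry x) (R.entry y) = ∑ r, g r := by
    unfold wch
    rw [hg]
    refine sum_congr rfl fun r _ => ?_
    congr 1
  rw [h0, Fintype.sum_sigma]
  have h1 : (∑ p : Bool × Fin (R.m j) × Fin (R.m j), g ⟨j, p⟩) ≤
      ∑ j : Fin q, ∑ p : Bool × Fin (R.m j) × Fin (R.m j), g ⟨j, p⟩ :=
    single_le_sum (f := fun j => ∑ p : Bool × Fin (R.m j) × Fin (R.m j), g ⟨j, p⟩)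
      (fun j _ => sum_nonneg fun p _ => hg0 _) (mem_univ j)
  refine le_trans ?_ h1
  rw [Fintype.sum_prod_type]
  have h2 : (∑ p : Fin (R.m j) × Fin (R.m j), g ⟨j, c, p⟩) ≤
      ∑ c : Bool, ∑ p : Fin (R.m j) × Fin (R.m j), g ⟨j, c, p⟩ :=
    single_le_sum (f := fun c => ∑ p : Fin (R.m j) × Fin (R.m j), g ⟨j, c, p⟩)
      (fun j _ => sum_nonneg fun p _ => hg0 _) (mem_univ c)
  refine le_trans (le_of_eq ?_) h2
  unfold dist
  rw [card_filter]
  push_cast
  rw [sum_div]
  refine sum_congr rfl fun p _ => ?_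
  rw [hg]
  by_cases h3 : R.table x j c p.1 p.2 = R.table y j c p.1 p.2
  · have h4 : R.entry y ⟨j, c, p⟩ = R.entry x ⟨j, c, p⟩ := h3.symm
    simp [h3, h4]
  · have h4 : R.entry y ⟨j, c, p⟩ ≠ R.entry x ⟨j, c, p⟩ := fun h => h3 h.symm
    simp [h3, h4, Red.wt]

/-- Right answers for different truth values need many changes. -/
theorem Red.pair (R : Red I q s) {κ : ℝ} (hκ : 0 ≤ κ) {x y : I → Bool} {p p' : Prop}
    (hp : p' ↔ ¬ p) (hx : R.RightOn κ x p) (hy : R.RightOn κ y p') :
    κ ^ 2 / 6 ≤ wch R.wt (R.entry x) (R.entry y) := by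
  have h1 : ∃ j, ¬ (Iso (R.table x j true) (R.table x j false) ↔
      Iso (R.table y j true) (R.table y j false)) := by
    by_contra hcon
    push Not at hcon
    have h2 : (fun j => Iso (R.table x j true) (R.table x j false)) =
        fun j => Iso (R.table y j true) (R.table y j false) := by
      funext j
      exact propext (hcon j)
    have h3 := hx.2
    have h4 := hy.2
    rw [h2] at h3
    tauto
  obtain ⟨j, hj⟩ := h1
  have h2 : ∃ c, ¬ Iso (R.table x j c) (R.table y j c) := by
    by_contra hcon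
    push Not at hcon
    apply hj
    constructor
    · intro h
      exact (hcon true).symm.trans (h.trans (hcon false))
    · intro h
      exact (hcon true).trans (h.trans (hcon false).symm)
  obtain ⟨c, hc⟩ := h2
  have h3 := far (by positivity) (hx.1 j c) (hy.1 j c) hc
  have hm : (0 : ℝ) < R.m j := by
    obtain ⟨G, i, i', ⟨e, -, -⟩, -⟩ := hx.1 j c
    exact_mod_cast lt_of_le_of_lt (Nat.zero_le _) (e 1).isLt
  refine le_trans ?_ (R.dist_le x y j c)
  rw [le_div_iff₀ (by positivity)]
  have h4 : κ ^ 2 / 6 * (R.m j : ℝ) ^ 2 = (κ * R.m j) ^ 2 / 6 := by ring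
  rw [h4]
  linarith

/-- The average case bound, the input being a function of `N` bits. -/
theorem Red.avg (R : Red I q s) {N : ℕ} {κ γ A : ℝ} (hκ : 0 ≤ κ)
    (inp : (Fin N → Bool) → I → Bool)
    (hf : R.InClass fun f => tsens (fun x => f (inp x)) ≤ 2 ^ N * A)
    (hA : (1 / 2 + γ) * 2 ^ N ≤ ((univ.filter fun x : Fin N → Bool =>
      R.RightOn κ (inp x) (Odd (univ.filter fun i => x i = true).card)).card : ℝ))
    (hA0 : 0 ≤ A) :
    γ * κ ^ 2 * N ≤ 6 * q * s * A := by
  have h1 := wpairs_main R.wt R.wt_nonneg (fun x r => R.entry (inp x) r)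
    (fun x => R.RightOn κ (inp x) (Odd (univ.filter fun i => x i = true).card)) (κ ^ 2 / 6) (s * A) γ
    (by positivity)
    (fun x i hx hy => R.pair hκ (SSE.odd_flip i x) hx hy) hA
    (fun r => by
      have h1 := fun_tsens (fun i x => R.f r.1 r.2.1 r.2.2.1 r.2.2.2 i (inp x)) (2 ^ N * A)
        (fun i => hf r.1 r.2.1 r.2.2.1 r.2.2.2 i) (R.dec r.1 r.2.1 r.2.2.1 r.2.2.2)
      have h2 : (s : ℝ) * (2 ^ N * A) = s * A * 2 ^ N := by ring
      rw [h2] at h1
      refine le_trans (le_of_eq ?_) h1
      refine sum_congr rfl fun x _ => ?_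
      norm_cast)
  have h2 : (∑ r, R.wt r) * (s * A) ≤ 2 * q * (s * A) :=
    mul_le_mul_of_nonneg_right R.sum_wt (by positivity)
  nlinarith

/-- The worst case bound for reductions with few negations. -/
theorem Red.neg {N t : ℕ} (R : Red (Fin N) q s) {κ : ℝ} (hκ : 0 ≤ κ) (hf : R.InClass (NegComp t))
    (hA : ∀ j ≤ N, R.RightOn κ (stair N j) (Odd (univ.filter fun i => stair N j i = true).card)) :
    κ ^ 2 * N ≤ 12 * q * s * (2 ^ (t + 1) - 1) := by
  have h1 := wstair (N := N) R.wt R.wt_nonneg (fun x r => R.entry x r) (κ ^ 2 / 6)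
    (s * (2 ^ (t + 1) - 1))
    (fun j hj => by
      have h2 : (Odd (univ.filter fun i => stair N (j + 1) i = true).card) ↔
          ¬ Odd (univ.filter fun i => stair N j i = true).card := by
        rw [stair_ones N j hj.le, stair_ones N (j + 1) hj, Nat.odd_add_one]
      exact R.pair hκ h2 (hA j hj.le) (hA (j + 1) hj))
    (fun r => by
      have h1 : ((range N).filter fun j => R.entry (stair N (j + 1)) r ≠ R.entry (stair N j) r) ⊆
          (univ : Finset (Fin s)).biUnion fun i =>
            (range N).filter fun j => R.f r.1 r.2.1 r.2.2.1 r.2.2.2 i (stair N (j + 1)) ≠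
              R.f r.1 r.2.1 r.2.2.1 r.2.2.2 i (stair N j) := by
        intro j hj
        rw [mem_filter] at hj
        rw [mem_biUnion]
        by_contra hcon
        push Not at hcon
        apply hj.2
        unfold Red.entry Red.table
        congr 1
        funext i
        have := hcon i (mem_univ _)
        rw [mem_filter] at this
        push Not at this
        exact this hj.1
      have h5 : ((range N).filter fun j => R.entry (stair N (j + 1)) r ≠
          R.entry (stair N j) r).card ≤ s * (2 ^ (t + 1) - 1) := by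
        refine (card_le_card h1).trans (card_biUnion_le.trans ?_)
        calc ∑ i, ((range N).filter fun j => R.f r.1 r.2.1 r.2.2.1 r.2.2.2 i (stair N (j + 1)) ≠
                R.f r.1 r.2.1 r.2.2.1 r.2.2.2 i (stair N j)).card ≤
              ∑ _i : Fin s, (2 ^ (t + 1) - 1) := by
              refine sum_le_sum fun i _ => ?_
              obtain ⟨l, hl, hmem⟩ := hf r.1 r.2.1 r.2.2.1 r.2.2.2 i
              obtain ⟨K', _, hK, k', d, hk', hd⟩ := hl.det _ hmem
              have h3 : ((range N).filter fun j =>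
                  R.f r.1 r.2.1 r.2.2.1 r.2.2.2 i (stair N (j + 1)) ≠
                  R.f r.1 r.2.1 r.2.2.1 r.2.2.2 i (stair N j)).card ≤ Fintype.card K' := by
                convert det_chain k' hk' _ d hd (stair N) (stair_mono N) N
              omega
          _ = _ := by rw [sum_const, card_univ, Fintype.card_fin, smul_eq_mul]
      convert h5)
  have hb : (((s * (2 ^ (t + 1) - 1) : ℕ)) : ℝ) = s * (2 ^ (t + 1) - 1) := by
    have : 1 ≤ 2 ^ (t + 1) := Nat.one_le_two_pow
    push_cast [Nat.cast_sub this]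
    ring
  rw [hb] at h1
  have h0 : (0 : ℝ) ≤ s * (2 ^ (t + 1) - 1) := by
    have : (1 : ℝ) ≤ 2 ^ (t + 1) := one_le_pow₀ (by norm_num)
    have h3 : (0 : ℝ) ≤ 2 ^ (t + 1) - 1 := by linarith
    positivity
  have h2 : (∑ r, R.wt r) * (s * (2 ^ (t + 1) - 1)) ≤ 2 * q * (s * (2 ^ (t + 1) - 1)) :=
    mul_le_mul_of_nonneg_right R.sum_wt h0
  nlinarith

end red

end Pool.Agent.X246.GRP
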