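import Pool.Agent.X246.GRP.Blr

set_option autoImplicit false

/-!
# Groups whose multiplication tables are similar are isomorphic
-/

namespace Pool.Agent.X246.GRP

open Finset

open scoped Classical

section table

variable {V : Type}

/-- The nonempty entries of `T` are the multiplication table of the group `G`, the elements of `G`
being renamed. -/
def IsCayley (T : V → V → Option V) (G : Type) [Group G] : Prop :=
  ∃ e : G → V, Function.Injective e ∧
    ∀ u v w, T u v = some w ↔ ∃ a b, e a = u ∧ e b = v ∧ e (a * b) = w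

/-- the number of the places at which two tables differ -/
noncomputable def dist [Fintype V] (T T' : V → V → Option V) : ℕ :=
  (univ.filter fun p : V × V => T p.1 p.2 ≠ T' p.1 p.2).card

theorem dist_comm [Fintype V] (T T' : V → V → Option V) : dist T T' = dist T' T := by
  unfold dist
  simp only [ne_comm]

theorem close_of_le [Fintype V] {T T' : V → V → Option V} {G H : Type} [Group G] [Group H]
    [Fintype G] [Fintype H] (hG : IsCayley T G) (hH : IsCayley T' H)
    (hle : Fintype.card H ≤ Fintype.card G) (h : 6 * dist T T' < Fintype.card G ^ 2) :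
    Nonempty (G ≃* H) := by
  obtain ⟨e, he, hT⟩ := hG
  obtain ⟨e', he', hT'⟩ := hH
  obtain ⟨f, hf⟩ : ∃ f : G → H, f = fun a => if h : ∃ b, e' b = e a then h.choose else 1 := ⟨_, rfl⟩
  have hf1 : ∀ a b, e' b = e a → f a = b := by
    intro a b hab
    have h1 : ∃ b, e' b = e a := ⟨b, hab⟩
    rw [hf]
    simp only [dif_pos h1]
    exact he' (h1.choose_spec.trans hab.symm)
  have hn : 0 < Fintype.card G := Fintype.card_pos
  have hmem : ∀ a b : G, T (e a) (e b) = T' (e a) (e b) →
      f (a * b) = f a * f b ∧ ∃ c, e' c = e a := by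
    intro a b hab
    have h1 : T (e a) (e b) = some (e (a * b)) := (hT _ _ _).2 ⟨a, b, rfl, rfl, rfl⟩
    rw [h1] at hab
    obtain ⟨a', b', ha, hb, hc⟩ := (hT' _ _ _).1 hab.symm
    refine ⟨?_, a', ha⟩
    rw [hf1 _ _ hc, hf1 _ _ ha, hf1 _ _ hb]
  have hbad : bad f ≤ dist T T' := by
    unfold bad dist
    refine card_le_card_of_injOn (fun p => (e p.1, e p.2)) ?_ ?_
    · intro p hp
      simp only [coe_filter, mem_univ, true_and, Set.mem_ofPred_eq] at hp ⊢
      exact fun hcon => hp (hmem _ _ hcon).1
    · rintro ⟨a, b⟩ - ⟨c, d⟩ - hab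
      simp only [Prod.mk.injEq] at hab
      rw [he hab.1, he hab.2]
  obtain ⟨φ, hφ⟩ := blr f (by omega)
  -- the elements outside of the smaller table
  have hout : 6 * (univ.filter fun a : G => ¬ ∃ c, e' c = e a).card < Fintype.card G := by
    have h1 : (univ.filter fun a : G => ¬ ∃ c, e' c = e a).card * Fintype.card G ≤ dist T T' := by
      unfold dist
      rw [← card_univ (α := G), ← card_product]
      refine card_le_card_of_injOn (fun p : G × G => (e p.1, e p.2)) ?_ ?_
      · intro p hp
        rw [mem_coe, mem_product, mem_filter] at hp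
        rw [mem_coe, mem_filter]
        exact ⟨mem_univ _, fun hcon => hp.1.2 (hmem p.1 p.2 hcon).2⟩
      · rintro ⟨a, b⟩ - ⟨c, d⟩ - hab
        simp only [Prod.mk.injEq] at hab
        rw [he hab.1, he hab.2]
    by_contra hcon
    have hcon := not_lt.1 hcon
    have h2 := Nat.mul_le_mul_right (Fintype.card G) hcon
    rw [sq] at h
    have h3 : 6 * (univ.filter fun a : G => ¬ ∃ c, e' c = e a).card * Fintype.card G =
      6 * ((univ.filter fun a : G => ¬ ∃ c, e' c = e a).card * Fintype.card G) := by ring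
    omega
  obtain ⟨X, hX⟩ : ∃ X : Finset G, X = univ.filter fun a => e' (φ a) = e a := ⟨_, rfl⟩
  have hXmem : ∀ a, a ∈ X ↔ e' (φ a) = e a := by
    intro a
    rw [hX, mem_filter]
    simp
  have hXc : Fintype.card G < 2 * X.card := by
    have h1 : (univ : Finset G) ⊆ X ∪ (univ.filter fun x => φ x ≠ f x) ∪
        (univ.filter fun a : G => ¬ ∃ c, e' c = e a) := by
      intro a _
      rw [mem_union, mem_union, mem_filter, mem_filter, hXmem]
      by_cases h1 : ∃ c, e' c = e a
      · by_cases h2 : φ a = f a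
        · left; left
          obtain ⟨c, hc⟩ := h1
          rw [h2, hf1 a c hc]
          exact hc
        · left; right
          exact ⟨mem_univ _, h2⟩
      · right
        exact ⟨mem_univ _, h1⟩
    have h2 := card_le_card h1
    rw [card_univ] at h2
    have h3 := card_union_le (X ∪ (univ.filter fun x => φ x ≠ f x))
      (univ.filter fun a : G => ¬ ∃ c, e' c = e a)
    have h4 := card_union_le X (univ.filter fun x => φ x ≠ f x)
    omega
  have hinj : Function.Injective φ := by
    rw [injective_iff_map_eq_one]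
    intro k hk
    by_contra hk1
    have h1 : ¬ Disjoint X (X.image fun a => a * k⁻¹) := by
      intro hd
      have h2 := card_le_univ (X ∪ X.image fun a => a * k⁻¹)
      rw [card_union_of_disjoint hd, card_image_of_injective _ (mul_left_injective _)] at h2
      omega
    rw [not_disjoint_iff] at h1
    obtain ⟨a, ha, hb⟩ := h1
    rw [mem_image] at hb
    obtain ⟨b, hb, rfl⟩ := hb
    rw [hXmem] at ha hb
    rw [map_mul, map_inv, hk, inv_one, mul_one, hb] at ha
    have h3 := he ha
    apply hk1
    rw [eq_comm, mul_eq_left, inv_eq_one] at h3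
    exact h3
  have hbij : Function.Bijective φ := by
    rw [Fintype.bijective_iff_injective_and_card]
    exact ⟨hinj, le_antisymm (Fintype.card_le_of_injective _ hinj) hle⟩
  exact ⟨MulEquiv.ofBijective φ hbij⟩

/-- **Tables of nonisomorphic groups.** If the multiplication tables of two groups differ in less
than one sixth of the entries of the larger one, the groups are isomorphic. -/
theorem close [Fintype V] {T T' : V → V → Option V} {G H : Type} [Group G] [Group H]
    [Fintype G] [Fintype H] (hG : IsCayley T G) (hH : IsCayley T' H)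
    (h : 6 * dist T T' < (max (Fintype.card G) (Fintype.card H)) ^ 2) :
    Nonempty (G ≃* H) := by
  rcases le_total (Fintype.card H) (Fintype.card G) with h1 | h1
  · rw [max_eq_left h1] at h
    exact close_of_le hG hH h1 h
  · rw [max_eq_right h1] at h
    rw [dist_comm] at h
    obtain ⟨φ⟩ := close_of_le hH hG h1 h
    exact ⟨φ.symm⟩

/-- `T` is the table of a finite group of order at least `m`. -/
def Valid (m : ℝ) (T : V → V → Option V) : Prop :=
  ∃ (G : Type) (_ : Group G) (_ : Fintype G), IsCayley T G ∧ m ≤ Fintype.card G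

/-- `T` and `T'` are tables of the same group. -/
def Iso (T T' : V → V → Option V) : Prop :=
  ∃ (G : Type) (_ : Group G), IsCayley T G ∧ IsCayley T' G

theorem IsCayley.congr {T : V → V → Option V} {G H : Type} [Group G] [Group H] (h : IsCayley T G)
    (φ : G ≃* H) : IsCayley T H := by
  obtain ⟨e, he, hT⟩ := h
  refine ⟨fun a => e (φ.symm a), he.comp φ.symm.injective, fun u v w => ?_⟩
  rw [hT]
  constructor
  · rintro ⟨a, b, h1, h2, h3⟩
    exact ⟨φ a, φ b, by simpa using h1, by simpa using h2, by simpa [map_mul] using h3⟩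
  · rintro ⟨a, b, h1, h2, h3⟩
    exact ⟨φ.symm a, φ.symm b, h1, h2, by rw [← map_mul]; exact h3⟩

/-- tables of the same set determine the group up to isomorphism -/
theorem IsCayley.unique {T : V → V → Option V} {G H : Type} [Group G] [Group H] (hG : IsCayley T G)
    (hH : IsCayley T H) : Nonempty (G ≃* H) := by
  obtain ⟨e, he, hT⟩ := hG
  obtain ⟨e', he', hT'⟩ := hH
  have h1 : ∀ a : G, ∃ b : H, e' b = e a := by
    intro a
    obtain ⟨a', b', h1, -, -⟩ := (hT' (e a) (e 1) (e (a * 1))).1 ((hT _ _ _).2 ⟨a, 1, rfl, rfl, rfl⟩)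
    exact ⟨a', h1⟩
  have h2 : ∀ b : H, ∃ a : G, e a = e' b := by
    intro b
    obtain ⟨a', b', h1, -, -⟩ := (hT (e' b) (e' 1) (e' (b * 1))).1 ((hT' _ _ _).2 ⟨b, 1, rfl, rfl, rfl⟩)
    exact ⟨a', h1⟩
  choose f hf using h1
  have hmul : ∀ a b, f (a * b) = f a * f b := by
    intro a b
    obtain ⟨a', b', h1, h2, h3⟩ := (hT' (e a) (e b) (e (a * b))).1 ((hT _ _ _).2 ⟨a, b, rfl, rfl, rfl⟩)
    apply he'
    rw [hf, ← h3]
    congr 1
    rw [← hf a] at h1
    rw [← hf b] at h2
    rw [he' h1, he' h2]
  refine ⟨MulEquiv.ofBijective (MonoidHom.mk' f hmul) ⟨?_, ?_⟩⟩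
  · intro a b hab
    apply he
    rw [← hf a, ← hf b]
    exact congrArg e' hab
  · intro b
    obtain ⟨a, ha⟩ := h2 b
    refine ⟨a, he' ?_⟩
    show e' (f a) = e' b
    rw [hf, ha]

theorem Iso.symm {T T' : V → V → Option V} (h : Iso T T') : Iso T' T := by
  obtain ⟨G, i, h1, h2⟩ := h
  exact ⟨G, i, h2, h1⟩

theorem Iso.trans {T T' T'' : V → V → Option V} (h : Iso T T') (h' : Iso T' T'') : Iso T T'' := by
  obtain ⟨G, i, h1, h2⟩ := h
  obtain ⟨H, j, h3, h4⟩ := h'
  obtain ⟨φ⟩ := h2.unique h3
  exact ⟨H, j, h1.congr φ, h4⟩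

/-- Tables of nonisomorphic groups of order at least `m` differ in at least `m² / 6` places. -/
theorem far [Fintype V] {T T' : V → V → Option V} {m : ℝ} (hm : 0 ≤ m) (h : Valid m T)
    (h' : Valid m T') (hne : ¬ Iso T T') : m ^ 2 ≤ 6 * dist T T' := by
  obtain ⟨G, i, i', hG, hGm⟩ := h
  obtain ⟨H, j, j', hH, hHm⟩ := h'
  by_contra hcon
  push Not at hcon
  apply hne
  have h1 : 6 * dist T T' < (max (Fintype.card G) (Fintype.card H)) ^ 2 := by
    have h2 : m ≤ (max (Fintype.card G) (Fintype.card H) : ℕ) := by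
      push_cast
      exact le_max_of_le_left hGm
    have h3 : m ^ 2 ≤ ((max (Fintype.card G) (Fintype.card H) : ℕ) : ℝ) ^ 2 :=
      pow_le_pow_left₀ hm h2 2
    have h4 : (6 * dist T T' : ℝ) < ((max (Fintype.card G) (Fintype.card H) : ℕ) : ℝ) ^ 2 := by
      linarith
    exact_mod_cast h4
  obtain ⟨φ⟩ := close hG hH h1
  exact ⟨H, j, hG.congr φ, hH⟩

end table

end Pool.Agent.X246.GRP
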